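import Pool.Agent.H762R3.BoxCount

/-! Switching disjoint cosets of cubes of cyclic subgroups in the zero-sum table of a finite
abelian group of bounded exponent. -/

set_option autoImplicit false

namespace Pool.Agent.Y826.BX

open Finset
open H762R3.BoxCount

variable {k : ℕ} {G : Type} [AddCommGroup G]

/-- sum of the coordinates -/
def e (α : Fin k → G) : G := ∑ i, α i

/-- `γ` lies in the coset of the cube of the cyclic group generated by `e α` through `α` -/
def Cube (α γ : Fin k → G) : Prop := ∀ i, γ i - α i ∈ AddSubgroup.zmultiples (e α)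

/-- the two cubes share a zero-sum point -/
def Conf (β α : Fin k → G) : Prop := ∃ γ, Cube β γ ∧ Cube α γ ∧ e γ = 0

theorem conf_symm (a b : Fin k → G) (h : Conf a b) : Conf b a := by
  obtain ⟨γ, h1, h2, h3⟩ := h
  exact ⟨γ, h2, h1, h3⟩

theorem cube_self (α : Fin k → G) : Cube α α := fun i => by
  rw [sub_self]; exact AddSubgroup.zero_mem _

theorem e_update (γ : Fin k → G) (i : Fin k) (x : G) :
    e (Function.update γ i x) = x + ∑ j ∈ univ \ {i}, γ j := by
  unfold e
  rw [Finset.sum_update_of_mem (Finset.mem_univ i)]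

/-- moving one coordinate by a multiple of `e α` stays in the cube -/
theorem cube_update (α γ : Fin k → G) (i : Fin k) (x y : G) (h : Cube α (Function.update γ i x))
    (hxy : y - x ∈ AddSubgroup.zmultiples (e α)) : Cube α (Function.update γ i y) := by
  intro j
  by_cases hj : j = i
  · subst hj
    have h1 := h j
    rw [Function.update_self] at h1 ⊢
    have : y - α j = (y - x) + (x - α j) := by abel
    rw [this]
    exact AddSubgroup.add_mem _ hxy h1
  · have h1 := h j
    rw [Function.update_of_ne hj] at h1 ⊢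
    exact h1

/-- union of the switched cubes -/
def U (K : List (Fin k → G)) (γ : Fin k → G) : Prop :=
  ∃ α ∈ K, e α ≠ 0 ∧ Cube α γ

open Classical in
/-- the switched table -/
noncomputable def A (K : List (Fin k → G)) (γ : Fin k → G) : Bool :=
  decide ((e γ = 0 ∧ ¬ U K γ) ∨ (∃ α ∈ K, e α ≠ 0 ∧ Cube α γ ∧ e γ = e α))

theorem A_iff (K : List (Fin k → G)) (γ : Fin k → G) :
    A K γ = true ↔ ((e γ = 0 ∧ ¬ U K γ) ∨ (∃ α ∈ K, e α ≠ 0 ∧ Cube α γ ∧ e γ = e α)) := by
  unfold A; simp

theorem A_perm (K : List (Fin k → G))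
    (hK : ∀ a ∈ K, ∀ b ∈ K, a ≠ b → ¬ Conf a b) (i : Fin k) (γ : Fin k → G) :
    ∃! x, A K (Function.update γ i x) = true := by
  set s := - ∑ j ∈ univ \ {i}, γ j with hs
  have he : ∀ x, e (Function.update γ i x) = x - s := by
    intro x
    rw [e_update, hs, sub_neg_eq_add]
  have he0 : e (Function.update γ i s) = 0 := by rw [he, sub_self]
  -- a switched point has its zero-sum partner in the same cube
  have hpart : ∀ (β : Fin k → G) (x : G), Cube β (Function.update γ i x) →
      e (Function.update γ i x) = e β → x = s + e β ∧ Cube β (Function.update γ i s) := by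
    intro β x h1 h2
    rw [he] at h2
    refine ⟨by rw [← h2]; abel, cube_update β γ i x s h1 ?_⟩
    have : s - x = -(e β) := by rw [← h2]; abel
    rw [this]
    exact AddSubgroup.neg_mem _ (AddSubgroup.mem_zmultiples _)
  by_cases hU : U K (Function.update γ i s)
  · obtain ⟨α, hα, hα0, hS⟩ := hU
    refine ⟨s + e α, ?_, ?_⟩
    · show A K (Function.update γ i (s + e α)) = true
      rw [A_iff]
      right
      refine ⟨α, hα, hα0, cube_update α γ i s (s + e α) hS ?_, ?_⟩
      · rw [add_sub_cancel_left]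
        exact AddSubgroup.mem_zmultiples _
      · rw [he, add_sub_cancel_left]
    · intro x hx
      replace hx : A K (Function.update γ i x) = true := hx
      rw [A_iff] at hx
      rcases hx with ⟨h1, h3⟩ | ⟨β, hβ, hβ0, hS1, h1⟩
      · exfalso
        have hxs : x = s := by rw [he] at h1; exact sub_eq_zero.mp h1
        rw [hxs] at h3
        exact h3 ⟨α, hα, hα0, hS⟩
      · obtain ⟨h4, hS2⟩ := hpart β x hS1 h1
        have hab : α = β := by
          by_contra hne
          exact hK α hα β hβ hne ⟨_, hS, hS2, he0⟩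
        rw [h4, hab]
  · refine ⟨s, ?_, ?_⟩
    · show A K (Function.update γ i s) = true
      rw [A_iff]
      exact Or.inl ⟨he0, hU⟩
    · intro x hx
      replace hx : A K (Function.update γ i x) = true := hx
      rw [A_iff] at hx
      rcases hx with ⟨h1, _⟩ | ⟨β, hβ, hβ0, hS1, h1⟩
      · rw [he] at h1; exact sub_eq_zero.mp h1
      · exfalso
        exact hU ⟨β, hβ, hβ0, (hpart β x hS1 h1).2⟩

/-- a kept pick is a one of the switched table -/
theorem A_kept (K : List (Fin k → G))
    (hK : ∀ a ∈ K, ∀ b ∈ K, a ≠ b → ¬ Conf a b) (α : Fin k → G) (hα : α ∈ K) :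
    A K α = true := by
  rw [A_iff]
  by_cases h0 : e α = 0
  · left
    refine ⟨h0, ?_⟩
    rintro ⟨β, hβ, hβ0, hS⟩
    have hne : α ≠ β := by
      intro h; rw [h] at h0; exact hβ0 h0
    exact hK α hα β hβ hne ⟨α, cube_self α, hS, h0⟩
  · right
    exact ⟨α, hα, h0, cube_self α, rfl⟩

/-- elements of a cyclic subgroup in a group of exponent dividing `N` -/
theorem mem_zm (N : ℕ) (hN0 : 0 < N) (hN : ∀ x : G, N • x = 0) (s x : G)
    (h : x ∈ AddSubgroup.zmultiples s) : ∃ j : Fin N, x = (j : ℕ) • s := by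
  obtain ⟨z, rfl⟩ := AddSubgroup.mem_zmultiples_iff.mp h
  have hz : (0 : ℤ) < N := by exact_mod_cast hN0
  refine ⟨⟨(z % N).toNat, ?_⟩, ?_⟩
  · have := Int.emod_lt_of_pos z hz
    have h0 := Int.emod_nonneg z hz.ne'
    omega
  · show z • s = (z % N).toNat • s
    have h0 := Int.emod_nonneg z hz.ne'
    have h1 : (((z % N).toNat : ℕ) : ℤ) = z % N := Int.toNat_of_nonneg h0
    rw [← natCast_zsmul, h1]
    conv_lhs => rw [← Int.emod_add_mul_ediv z N]
    rw [add_zsmul, mul_comm, mul_zsmul]
    have : ((N : ℤ)) • s = 0 := by rw [natCast_zsmul]; exact hN s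
    rw [this, zsmul_zero, add_zero]

/-- the last coordinate is determined by the sum -/
theorem ext_of_sum {d : ℕ} (α β : Fin (d + 1) → G) (h : ∀ i : Fin d, α i.castSucc = β i.castSucc)
    (hs : e α = e β) : α = β := by
  unfold e at hs
  rw [Fin.sum_univ_castSucc, Fin.sum_univ_castSucc] at hs
  have h1 : ∑ i : Fin d, α i.castSucc = ∑ i : Fin d, β i.castSucc :=
    Finset.sum_congr rfl (fun i _ => h i)
  rw [h1] at hs
  funext i
  refine Fin.lastCases ?_ (fun j => h j) i
  exact add_left_cancel hs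

/-- extension of `d` coordinates by the coordinate that makes the sum equal to `s` -/
def extd {d : ℕ} (v : Fin d → G) (s : G) : Fin (d + 1) → G :=
  Fin.snoc v (s - ∑ i, v i)

theorem extd_cast {d : ℕ} (v : Fin d → G) (s : G) (i : Fin d) : extd v s i.castSucc = v i := by
  unfold extd; rw [Fin.snoc_castSucc]

theorem e_extd {d : ℕ} (v : Fin d → G) (s : G) : e (extd v s) = s := by
  unfold e
  rw [Fin.sum_univ_castSucc]
  simp_rw [extd_cast]
  unfold extd
  rw [Fin.snoc_last]
  abel

open Classical in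
theorem deg_le {d : ℕ} [Fintype G] (N : ℕ) (hN0 : 0 < N) (hN : ∀ x : G, N • x = 0)
    (β : Fin (d + 1) → G) :
    (univ.filter (fun α : Fin (d + 1) → G => Conf β α)).card ≤ N ^ (2 * d) * Fintype.card G := by
  have hsub : univ.filter (fun α : Fin (d + 1) → G => Conf β α) ⊆
      (univ : Finset ((Fin d → Fin N) × (Fin d → Fin N) × G)).image
        (fun p => extd (fun i => β i.castSucc + ((p.1 i : ℕ) • e β) - ((p.2.1 i : ℕ) • p.2.2))
          p.2.2) := by
    intro α hα
    rw [Finset.mem_filter] at hα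
    obtain ⟨γ, h1, h2, h3⟩ := hα.2
    have hu : ∀ i : Fin d, ∃ j : Fin N, γ i.castSucc - β i.castSucc = (j : ℕ) • e β :=
      fun i => mem_zm N hN0 hN _ _ (h1 i.castSucc)
    have hv : ∀ i : Fin d, ∃ j : Fin N, γ i.castSucc - α i.castSucc = (j : ℕ) • e α :=
      fun i => mem_zm N hN0 hN _ _ (h2 i.castSucc)
    choose u hu using hu
    choose v hv using hv
    rw [Finset.mem_image]
    refine ⟨(u, v, e α), Finset.mem_univ _, ?_⟩
    refine ext_of_sum _ _ (fun i => ?_) (e_extd _ _)
    rw [extd_cast]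
    show β i.castSucc + ((u i : ℕ) • e β) - ((v i : ℕ) • e α) = α i.castSucc
    rw [← hu i, ← hv i]
    abel
  refine le_trans (Finset.card_le_card hsub) (le_trans Finset.card_image_le ?_)
  rw [Finset.card_univ, Fintype.card_prod, Fintype.card_prod, Fintype.card_pi_const,
    Fintype.card_fin]
  apply le_of_eq
  rw [two_mul, pow_add]
  ring

/-- main existence statement over a group of exponent dividing `N` -/
theorem exists_table {d : ℕ} [Fintype G] (N : ℕ) (hN0 : 0 < N) (hN : ∀ x : G, N • x = 0) :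
    ∃ B : (Fin (d + 1) → G) → Bool, (∀ i γ, ∃! x, B (Function.update γ i x) = true) ∧
      ∀ T : Fin (d + 1) → Finset G, (∀ α, (∀ i, α i ∈ T i) → B α = false) →
        ∏ i, (T i).card ≤ 32 * (d + 2) * N ^ (2 * d) * (Fintype.card G) ^ 2 := by
  classical
  set n := Fintype.card G with hn
  have hn0 : 0 < n := Fintype.card_pos
  have hnr : (0 : ℝ) < n := by exact_mod_cast hn0
  have hNr : (0 : ℝ) < N := by exact_mod_cast hN0
  set D : ℕ := N ^ (2 * d) * n with hD
  have hD0 : 0 < D := by positivity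
  set C : ℕ := 32 * (d + 2) * N ^ (2 * d) with hC
  have hcardΩ : Fintype.card (Fin (d + 1) → G) = n ^ (d + 1) := by
    rw [Fintype.card_pi_const]
  rcases Nat.lt_or_ge (n ^ (d + 1)) (8 * D) with hlt | hge
  · -- small case: the zero-sum table
    refine ⟨A [], fun i γ => A_perm [] (by simp) i γ, fun T _ => ?_⟩
    calc ∏ i, (T i).card ≤ ∏ _i : Fin (d + 1), n := by
          apply Finset.prod_le_prod'
          intro i _
          exact Finset.card_le_univ _
      _ = n ^ (d + 1) := by simp
      _ ≤ 8 * D := hlt.le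
      _ ≤ C * n ^ 2 := by
          rw [hC, hD]
          have h1 : 1 ≤ n := hn0
          have h2 : n ≤ n ^ 2 := by nlinarith
          calc 8 * (N ^ (2 * d) * n) = 8 * N ^ (2 * d) * n := by ring
            _ ≤ (32 * (d + 2)) * N ^ (2 * d) * n ^ 2 := by
                apply Nat.mul_le_mul _ h2
                apply Nat.mul_le_mul_right
                omega
  set M : ℕ := n ^ (d + 1) / (8 * D) with hM
  have hM0 : 0 < M := Nat.div_pos hge (by positivity)
  have hM1 : 8 * D * M ≤ n ^ (d + 1) := Nat.mul_div_le _ _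
  have hM2 : n ^ (d + 1) < 8 * D * (M + 1) := by
    have := Nat.lt_mul_div_succ (n ^ (d + 1)) (show 0 < 8 * D by positivity)
    exact this
  have hM3 : n ^ (d + 1) ≤ 16 * D * M := by nlinarith
  set q : ℕ := 8 * M with hq
  have hq0 : 0 < q := by omega
  set Cf : ((Fin (d + 1) → G) × Fin q) → ((Fin (d + 1) → G) × Fin q) → Prop :=
    fun a b => Conf a.1 b.1 with hCf
  have hdeg : ∀ b, (univ.filter (fun a => Cf b a)).card ≤ n ^ (d + 1) := by
    intro b
    have h1 : univ.filter (fun a => Cf b a) =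
        (univ.filter (fun α : Fin (d + 1) → G => Conf b.1 α)) ×ˢ (univ : Finset (Fin q)) := by
      ext a
      simp [hCf]
    rw [h1, Finset.card_product, Finset.card_univ, Fintype.card_fin]
    calc (univ.filter (fun α : Fin (d + 1) → G => Conf b.1 α)).card * q ≤ D * q :=
          Nat.mul_le_mul_right _ (deg_le N hN0 hN b.1)
      _ = 8 * D * M := by rw [hq]; ring
      _ ≤ n ^ (d + 1) := hM1
  set s : Finset (Fin (d + 1) → Finset G) :=
    univ.filter (fun T => C * n ^ 2 < ∏ i, (T i).card) with hs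
  have hscard : (s.card : ℝ) ≤ 2 ^ ((d + 1) * n) := by
    have h1 : s.card ≤ Fintype.card (Fin (d + 1) → Finset G) := Finset.card_le_univ _
    rw [Fintype.card_pi_const, Fintype.card_finset, ← hn, ← pow_mul, mul_comm n (d + 1)] at h1
    exact_mod_cast h1
  have hbox : ∀ T ∈ s, ((C * n ^ 2 * q : ℕ) : ℝ) ≤
      ((Fintype.piFinset T) ×ˢ (univ : Finset (Fin q))).card := by
    intro T hT
    rw [hs, Finset.mem_filter] at hT
    rw [Finset.card_product, Fintype.card_piFinset, Finset.card_univ, Fintype.card_fin]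
    exact_mod_cast Nat.mul_le_mul_right q hT.2.le
  have hsmall : 2 * (s.card : ℝ) *
      Real.exp (-(((C * n ^ 2 * q : ℕ) : ℝ) / (16 * ((n ^ (d + 1) : ℕ) : ℝ)))) < 1 := by
    have h1 : (d + 2 : ℝ) * n ≤ ((C * n ^ 2 * q : ℕ) : ℝ) / (16 * ((n ^ (d + 1) : ℕ) : ℝ)) := by
      rw [le_div_iff₀ (by positivity)]
      have h2 : ((n ^ (d + 1) : ℕ) : ℝ) ≤ 16 * D * M := by exact_mod_cast hM3
      calc (d + 2 : ℝ) * n * (16 * ((n ^ (d + 1) : ℕ) : ℝ))
          ≤ (d + 2 : ℝ) * n * (16 * (16 * D * M)) := by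
            apply mul_le_mul_of_nonneg_left _ (by positivity)
            linarith
        _ = ((C * n ^ 2 * q : ℕ) : ℝ) := by
            rw [hC, hq, hD]
            push_cast
            ring
    have h3 : 2 * (s.card : ℝ) ≤ 2 ^ ((d + 2) * n) := by
      calc 2 * (s.card : ℝ) ≤ 2 ^ n * 2 ^ ((d + 1) * n) := by
            apply mul_le_mul _ hscard (Nat.cast_nonneg _) (by positivity)
            calc (2 : ℝ) = 2 ^ 1 := (pow_one 2).symm
              _ ≤ 2 ^ n := pow_le_pow_right₀ (by norm_num) hn0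
        _ = 2 ^ ((d + 2) * n) := by rw [← pow_add]; congr 1; ring
    have h4 : (2 : ℝ) ^ ((d + 2) * n) < Real.exp ((d + 2 : ℝ) * n) := by
      have h5 : (d + 2 : ℝ) * n = (((d + 2) * n : ℕ) : ℝ) * 1 := by push_cast; ring
      rw [h5, Real.exp_nat_mul]
      apply pow_lt_pow_left₀ _ (by norm_num) (by positivity)
      have := Real.exp_one_gt_d9
      linarith
    have h6 : Real.exp (-(((C * n ^ 2 * q : ℕ) : ℝ) / (16 * ((n ^ (d + 1) : ℕ) : ℝ)))) ≤
        Real.exp (-((d + 2 : ℝ) * n)) := Real.exp_le_exp.mpr (neg_le_neg h1)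
    have h7 : 0 < Real.exp ((d + 2 : ℝ) * n) := Real.exp_pos _
    calc 2 * (s.card : ℝ) *
        Real.exp (-(((C * n ^ 2 * q : ℕ) : ℝ) / (16 * ((n ^ (d + 1) : ℕ) : ℝ))))
        ≤ 2 * (s.card : ℝ) * Real.exp (-((d + 2 : ℝ) * n)) :=
          mul_le_mul_of_nonneg_left h6 (by positivity)
      _ < 1 := by
          rw [Real.exp_neg, ← div_eq_mul_inv, div_lt_one h7]
          linarith
  obtain ⟨l, hl⟩ := exists_list Cf (n ^ (d + 1)) (by positivity)
    (fun a b h => conf_symm a.1 b.1 h) hdeg M hM0 (by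
      rw [Fintype.card_prod, hcardΩ, Fintype.card_fin, hq]; ring) s
    (fun T => (Fintype.piFinset T) ×ˢ (univ : Finset (Fin q))) _ hbox hsmall
  have hpair := kept_pairwise Cf l
  have hK' : ∀ a ∈ kept Cf l, ∀ b ∈ kept Cf l, a ≠ b → ¬ Cf a b := by
    have : Std.Symm (fun a b : (Fin (d + 1) → G) × Fin q => ¬ Cf b a) :=
      ⟨fun a b h h' => h (conf_symm _ _ h')⟩
    intro a ha b hb hab h
    exact hpair.forall ha hb hab (conf_symm _ _ h)
  have hK : ∀ a ∈ (kept Cf l).map Prod.fst, ∀ b ∈ (kept Cf l).map Prod.fst,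
      a ≠ b → ¬ Conf a b := by
    intro a ha b hb hab
    obtain ⟨a', ha', rfl⟩ := List.mem_map.mp ha
    obtain ⟨b', hb', rfl⟩ := List.mem_map.mp hb
    exact hK' a' ha' b' hb' (fun h => hab (by rw [h]))
  refine ⟨A ((kept Cf l).map Prod.fst), fun i γ => A_perm _ hK i γ, ?_⟩
  intro T hT
  by_contra hlt
  push Not at hlt
  obtain ⟨a, ha, haT⟩ := hl T (by rw [hs, Finset.mem_filter]; exact ⟨Finset.mem_univ _, hlt⟩)
  have h1 := A_kept _ hK a.1 (List.mem_map.mpr ⟨a, ha, rfl⟩)
  have h3 := hT a.1 (fun i => (Fintype.mem_piFinset.mp (Finset.mem_product.mp haT).1) i)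
  rw [h1] at h3
  exact Bool.noConfusion h3

end Pool.Agent.Y826.BX
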